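import Pool.Agent.Helper37.BP.Defs

/-! Part GLOW of the BAP_p project (MP_6f6997_an): trace lower bound for `gNorm`. -/

open MeasureTheory
open scoped ENNReal NNReal

set_option maxSynthPendingDepth 3

namespace Pool.Agent.Helper38.BAP

open Pool.Agent.BAPp (sgn weakNorm gNorm iNorm incl FiniteRank)
open Pool.Agent.Helper37.BP

theorem trace_indep {Y : Type} [AddCommGroup Y] [Module ℝ Y] {n m : ℕ}
    (ys : Fin n → (Y →ₗ[ℝ] ℝ)) (z : Fin n → Y)
    (al : Fin m → (Y →ₗ[ℝ] ℝ)) (v : Fin m → Y)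
    (h : ∀ y, ∑ i, ys i y • z i = ∑ j, al j y • v j) :
    ∑ i, ys i (z i) = ∑ j, al j (v j) := by
  classical
  set S : Submodule ℝ Y := Submodule.span ℝ (Set.range z ∪ Set.range v) with hS
  have hfin : (Set.range z ∪ Set.range v).Finite := (Set.finite_range z).union (Set.finite_range v)
  haveI : FiniteDimensional ℝ S := FiniteDimensional.span_of_finite ℝ hfin
  have hz : ∀ i, z i ∈ S := fun i => Submodule.subset_span (Or.inl ⟨i, rfl⟩)
  have hv : ∀ j, v j ∈ S := fun j => Submodule.subset_span (Or.inr ⟨j, rfl⟩)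
  have key : (∑ i, ((ys i).comp S.subtype).smulRight (⟨z i, hz i⟩ : S)) =
      ∑ j, ((al j).comp S.subtype).smulRight (⟨v j, hv j⟩ : S) := by
    ext y
    have := h (y : Y)
    simp only [LinearMap.coe_sum, Finset.sum_apply, LinearMap.smulRight_apply, LinearMap.comp_apply,
      Submodule.coe_subtype, Submodule.coe_sum, Submodule.coe_smul]
    exact this
  have h2 := congrArg (LinearMap.trace ℝ S) key
  simp only [map_sum, LinearMap.trace_smulRight, LinearMap.comp_apply, Submodule.coe_subtype] at h2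
  exact h2

theorem gNorm_lower' (p q : ℝ) (hpq : p.HolderConjugate q) {Y X : Type} [NormedAddCommGroup Y]
    [NormedSpace ℝ Y] [NormedAddCommGroup X] [NormedSpace ℝ X] (M : ℝ) (hM : 0 < M)
    (u : X →ₗ[ℝ] Y)
    (hu : ∀ (n : ℕ) (xs : Fin n → X),
      (∀ f : X →L[ℝ] ℝ, ‖f‖ ≤ 1 → ∑ k, |f (xs k)| ^ q ≤ 1) → ∑ k, ‖u (xs k)‖ ^ q ≤ M ^ q)
    (T : Y →L[ℝ] X) {m : ℕ} (al : Fin m → (Y →L[ℝ] ℝ)) (v : Fin m → Y)
    (hT : ∀ y, u (T y) = ∑ j, al j y • v j) (htr : ∑ j, al j (v j) = 1) :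
    ENNReal.ofReal (1 / M) ≤ gNorm p T := by
  classical
  have hq1 : 1 < q := hpq.symm.lt
  have hq0 : 0 < q := by linarith
  have hqe : p / (p - 1) = q := hpq.conjExponent_eq
  unfold gNorm
  refine le_iInf fun n => le_iInf fun ys => le_iInf fun xs => le_iInf fun hrep => ?_
  rw [hqe]
  -- the weak norm is finite
  have hWtop : weakNorm q xs ≠ ⊤ := by
    have h1 : weakNorm q xs ≤ ENNReal.ofReal ((∑ k, ‖xs k‖ ^ q) ^ (1 / q)) := by
      refine iSup₂_le fun f hf1 => ENNReal.ofReal_le_ofReal ?_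
      apply Real.rpow_le_rpow
      · exact Finset.sum_nonneg fun k _ => Real.rpow_nonneg (abs_nonneg _) _
      · apply Finset.sum_le_sum
        intro k _
        apply Real.rpow_le_rpow (abs_nonneg _) _ hq0.le
        have h2 := f.le_opNorm (xs k)
        rw [Real.norm_eq_abs] at h2
        exact h2.trans (mul_le_of_le_one_left (norm_nonneg _) hf1)
      · positivity
    exact (lt_of_le_of_lt h1 ENNReal.ofReal_lt_top).ne
  set Wr : ℝ := (weakNorm q xs).toReal with hWr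
  have hWr0 : 0 ≤ Wr := ENNReal.toReal_nonneg
  have hWeq : weakNorm q xs = ENNReal.ofReal Wr := (ENNReal.ofReal_toReal hWtop).symm
  -- each functional
  have hfh : ∀ f : X →L[ℝ] ℝ, ‖f‖ ≤ 1 → ∑ k, |f (xs k)| ^ q ≤ Wr ^ q := by
    intro f hf1
    have h2 : ENNReal.ofReal ((∑ k, |f (xs k)| ^ q) ^ (1 / q)) ≤ weakNorm q xs :=
      le_iSup₂ (f := fun (f : X →L[ℝ] ℝ) (_ : ‖f‖ ≤ 1) =>
        ENNReal.ofReal ((∑ k, |f (xs k)| ^ q) ^ (1 / q))) _ hf1
    rw [hWeq, ENNReal.ofReal_le_ofReal_iff hWr0] at h2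
    have hS0 : 0 ≤ ∑ k, |f (xs k)| ^ q :=
      Finset.sum_nonneg fun k _ => Real.rpow_nonneg (abs_nonneg _) _
    have h3 := Real.rpow_le_rpow (Real.rpow_nonneg hS0 _) h2 hq0.le
    rwa [← Real.rpow_mul hS0, one_div, inv_mul_cancel₀ hq0.ne', Real.rpow_one] at h3
  have htrace : ∑ k, ys k (u (xs k)) = 1 := by
    have h1 := trace_indep (fun k => (ys k : Y →ₗ[ℝ] ℝ)) (fun k => u (xs k))
      (fun j => (al j : Y →ₗ[ℝ] ℝ)) v (by
        intro y
        have h2 : ∑ i, ys i y • u (xs i) = u (T y) := by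
          rw [hrep y, map_sum]
          simp
        simp only [ContinuousLinearMap.coe_coe]
        rw [h2, hT y])
    simp only [ContinuousLinearMap.coe_coe] at h1
    rw [h1, htr]
  set a : ℝ := (∑ k, ‖ys k‖ ^ p) ^ (1 / p) with ha
  have ha0 : 0 ≤ a := Real.rpow_nonneg (Finset.sum_nonneg fun k _ =>
    Real.rpow_nonneg (norm_nonneg _) _) _
  have hmain : ∀ W : ℝ, 0 < W → Wr ≤ W → 1 ≤ a * (M * W) := by
    intro W hW hWW
    have h1 : ∑ k, ‖u (W⁻¹ • xs k)‖ ^ q ≤ M ^ q := by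
      apply hu n (fun k => W⁻¹ • xs k)
      intro f hf1
      have h2 : ∑ k, |f (W⁻¹ • xs k)| ^ q = (W⁻¹) ^ q * ∑ k, |f (xs k)| ^ q := by
        rw [Finset.mul_sum]
        refine Finset.sum_congr rfl fun k _ => ?_
        rw [map_smul, smul_eq_mul, abs_mul, abs_of_pos (inv_pos.2 hW),
          Real.mul_rpow (inv_pos.2 hW).le (abs_nonneg _)]
      rw [h2]
      calc (W⁻¹) ^ q * ∑ k, |f (xs k)| ^ q ≤ (W⁻¹) ^ q * W ^ q := by
            apply mul_le_mul_of_nonneg_left _ (by positivity)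
            exact (hfh f hf1).trans (Real.rpow_le_rpow hWr0 hWW hq0.le)
        _ = 1 := by
            rw [← Real.mul_rpow (by positivity) hW.le, inv_mul_cancel₀ hW.ne', Real.one_rpow]
    have h2 : ∑ k, ‖u (xs k)‖ ^ q ≤ (M * W) ^ q := by
      have h3 : ∑ k, ‖u (W⁻¹ • xs k)‖ ^ q = (W⁻¹) ^ q * ∑ k, ‖u (xs k)‖ ^ q := by
        rw [Finset.mul_sum]
        refine Finset.sum_congr rfl fun k _ => ?_
        rw [map_smul, norm_smul, Real.norm_of_nonneg (inv_pos.2 hW).le,
          Real.mul_rpow (inv_pos.2 hW).le (norm_nonneg _)]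
      rw [h3] at h1
      calc ∑ k, ‖u (xs k)‖ ^ q = W ^ q * ((W⁻¹) ^ q * ∑ k, ‖u (xs k)‖ ^ q) := by
            rw [← mul_assoc, ← Real.mul_rpow hW.le (by positivity), mul_inv_cancel₀ hW.ne',
              Real.one_rpow, one_mul]
        _ ≤ W ^ q * M ^ q := mul_le_mul_of_nonneg_left h1 (by positivity)
        _ = (M * W) ^ q := by rw [Real.mul_rpow hM.le hW.le, mul_comm]
    calc (1 : ℝ) = ∑ k, ys k (u (xs k)) := htrace.symm
      _ ≤ ∑ k, ‖ys k‖ * ‖u (xs k)‖ := by
          apply Finset.sum_le_sum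
          intro k _
          exact (le_abs_self _).trans ((ys k).le_opNorm (u (xs k)))
      _ ≤ (∑ k, |‖ys k‖| ^ p) ^ (1 / p) * (∑ k, |‖u (xs k)‖| ^ q) ^ (1 / q) :=
          Real.inner_le_Lp_mul_Lq _ _ _ hpq
      _ = a * (∑ k, ‖u (xs k)‖ ^ q) ^ (1 / q) := by
          simp only [abs_norm]
          rfl
      _ ≤ a * ((M * W) ^ q) ^ (1 / q) := by
          apply mul_le_mul_of_nonneg_left _ ha0
          apply Real.rpow_le_rpow _ h2 (by positivity)
          exact Finset.sum_nonneg fun k _ => Real.rpow_nonneg (norm_nonneg _) _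
      _ = a * (M * W) := by
          rw [← Real.rpow_mul (by positivity), mul_one_div_cancel hq0.ne', Real.rpow_one]
  have hWpos : 0 < Wr := by
    rcases hWr0.lt_or_eq with h | h
    · exact h
    · exfalso
      have h1 := hmain (1 / (2 * (a * M + 1))) (by positivity) (by rw [← h]; positivity)
      have h2 : a * (M * (1 / (2 * (a * M + 1)))) < 1 := by
        rw [mul_one_div, mul_div_assoc', div_lt_one (by positivity)]
        nlinarith [mul_nonneg ha0 hM.le]
      linarith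
  have h1 := hmain Wr hWpos le_rfl
  rw [hWeq, ← ENNReal.ofReal_mul ha0]
  apply ENNReal.ofReal_le_ofReal
  rw [div_le_iff₀ (by positivity)]
  calc (1 : ℝ) ≤ a * (M * Wr) := h1
    _ = a * Wr * M := by ring

end Pool.Agent.Helper38.BAP
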