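import Pool.Agent.Helper38.BAP.Glow
import Pool.Graph.R_seed8.BAPp.ILe

open MeasureTheory
open scoped ENNReal NNReal

set_option maxSynthPendingDepth 3

namespace Pool.Agent.Helper38.BAP

open Pool.Agent.BAPp (sgn weakNorm gNorm iNorm incl FiniteRank)
open Pool.Agent.Helper37.BP

/-- the function `ρ^{-1/q} y` on `Γ` -/
noncomputable def gfw (q : ℝ) {Γ I : Type} (D : Sys Γ I)
    (y : lp (fun _ : Γ => ℝ) (ENNReal.ofReal q)) : Γ → ℝ :=
  fun γ => D.ρ γ ^ (-(1 / q)) * y γ

/-- The statement of part WOP. -/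
def WopStmt (q : ℝ) [Fact (1 ≤ ENNReal.ofReal q)] : Prop :=
  ∃ M : ℝ, 0 < M ∧
    ∀ (Γ I : Type) [DecidableEq I] (D : Sys Γ I),
    ∃ (YY : Submodule ℝ (lp (fun _ : Γ => ℝ) (ENNReal.ofReal q))) (W : XX D →ₗ[ℝ] YY),
      (∀ y, y ∈ YY ↔ ∀ j, ip D.ρ (D.vh j) (gfw q D y) = 0) ∧
      IsClosed (YY : Set (lp (fun _ : Γ => ℝ) (ENNReal.ofReal q))) ∧
      (∀ x : XX D, (∀ i, ip D.ρ (D.vh i) (fun γ => (x : lp (fun _ : Γ ⊕ Om I => ℝ) ∞) (Sum.inl γ))
          = 0) → ∀ γ, gfw q D (W x) γ = (x : lp (fun _ : Γ ⊕ Om I => ℝ) ∞) (Sum.inl γ)) ∧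
      (∀ (n : ℕ) (xs : Fin n → XX D),
        (∀ f : XX D →L[ℝ] ℝ, ‖f‖ ≤ 1 → ∑ k, |f (xs k)| ^ q ≤ 1) →
        ∑ k, ‖W (xs k)‖ ^ q ≤ M ^ q)

section basic

variable {Γ I : Type} [DecidableEq I] (D : Sys Γ I)

omit [DecidableEq I] in
theorem memlp_mk {f : Γ → ℝ} {C : ℝ} (hC : ∀ γ, |f γ| ≤ C) :
    Memℓp (fun θ : Γ ⊕ Om I => (Sum.elim f (fun _ => (0:ℝ)) θ : ℝ)) ∞ := by
  apply memℓp_infty
  refine ⟨max C 0, ?_⟩
  rintro _ ⟨θ, rfl⟩
  rcases θ with γ | o
  · simpa using Or.inl (hC γ)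
  · simp

/-- bounded functions on `Γ` orthogonal to the system, as elements of `XX D` -/
noncomputable def mkX (f : Γ → ℝ) (C : ℝ) (hC : ∀ γ, |f γ| ≤ C)
    (h : ∀ j, ip D.ρ (D.vh j) f = 0) : XX D :=
  ⟨⟨fun θ : Γ ⊕ Om I => (Sum.elim f (fun _ => (0:ℝ)) θ : ℝ), memlp_mk hC⟩, by
    intro F i
    show ip D.ρ (D.vh i) f = av (fun _ : F → Bool => (0:ℝ)) i
    rw [h]
    simp [av]⟩

theorem mkX_inl (f : Γ → ℝ) (C : ℝ) (hC : ∀ γ, |f γ| ≤ C)
    (h : ∀ j, ip D.ρ (D.vh j) f = 0) (γ : Γ) :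
    ((mkX D f C hC h : XX D) : lp (fun _ : Γ ⊕ Om I => ℝ) ∞) (Sum.inl γ) = f γ := rfl

theorem mkX_inr (f : Γ → ℝ) (C : ℝ) (hC : ∀ γ, |f γ| ≤ C)
    (h : ∀ j, ip D.ρ (D.vh j) f = 0) (o : Om I) :
    ((mkX D f C hC h : XX D) : lp (fun _ : Γ ⊕ Om I => ℝ) ∞) (Sum.inr o) = 0 := rfl

theorem mkX_norm (f : Γ → ℝ) (C : ℝ) (hC : ∀ γ, |f γ| ≤ C) (hC0 : 0 ≤ C)
    (h : ∀ j, ip D.ρ (D.vh j) f = 0) : ‖mkX D f C hC h‖ ≤ C := by
  show ‖(mkX D f C hC h : lp (fun _ : Γ ⊕ Om I => ℝ) ∞)‖ ≤ C
  apply lp.norm_le_of_forall_le hC0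
  rintro (γ | o)
  · rw [mkX_inl]; exact hC γ
  · rw [mkX_inr]; simpa using hC0

omit [DecidableEq I] in
/-- Hoelder for finitely supported functionals -/
theorem ip_gfw_le (p q : ℝ) (hpq : p.HolderConjugate q) (h : Γ → ℝ)
    (hfin : (Function.support h).Finite) (y : lp (fun _ : Γ => ℝ) (ENNReal.ofReal q)) :
    |ip D.ρ h (gfw q D y)| ≤ (∑' γ, D.ρ γ * |h γ| ^ p) ^ (1 / p) * ‖y‖ := by
  classical
  have hp1 : 1 < p := hpq.lt
  have hq1 : 1 < q := hpq.symm.lt
  have hp0 : 0 < p := by linarith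
  have hq0 : 0 < q := by linarith
  set s : Finset Γ := hfin.toFinset with hs
  have e1 : ip D.ρ h (gfw q D y) = ∑ γ ∈ s, (D.ρ γ ^ (1 / p) * h γ) * y γ := by
    unfold ip
    rw [tsum_eq_sum (s := s)]
    · refine Finset.sum_congr rfl fun γ _ => ?_
      unfold gfw
      have h1 : D.ρ γ * D.ρ γ ^ (-(1 / q)) = D.ρ γ ^ (1 / p) := by
        rw [← Real.rpow_one_add' (D.pos γ).le]
        · congr 1
          have := hpq.inv_add_inv_eq_one
          rw [one_div, one_div]; linarith
        · have := hpq.inv_add_inv_eq_one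
          have h3 : 0 < p⁻¹ := by positivity
          rw [one_div]
          intro h4
          linarith
      rw [← h1]; ring
    · intro γ hγ
      have : h γ = 0 := by
        by_contra h0
        exact hγ (by rw [hs, Set.Finite.mem_toFinset]; exact h0)
      rw [this]; ring
  rw [e1]
  calc |∑ γ ∈ s, (D.ρ γ ^ (1 / p) * h γ) * y γ|
      ≤ ∑ γ ∈ s, |D.ρ γ ^ (1 / p) * h γ| * |y γ| := by
        refine (Finset.abs_sum_le_sum_abs _ _).trans ?_
        exact Finset.sum_le_sum fun γ _ => (abs_mul _ _).le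
    _ ≤ (∑ γ ∈ s, |(|D.ρ γ ^ (1 / p) * h γ|)| ^ p) ^ (1 / p) *
        (∑ γ ∈ s, |(|y γ|)| ^ q) ^ (1 / q) := Real.inner_le_Lp_mul_Lq _ _ _ hpq
    _ ≤ (∑' γ, D.ρ γ * |h γ| ^ p) ^ (1 / p) * ‖y‖ := by
        have h1 : ∑ γ ∈ s, |(|D.ρ γ ^ (1 / p) * h γ|)| ^ p = ∑' γ, D.ρ γ * |h γ| ^ p := by
          rw [tsum_eq_sum (s := s)]
          · refine Finset.sum_congr rfl fun γ _ => ?_
            rw [abs_abs, abs_mul, abs_of_nonneg (Real.rpow_nonneg (D.pos γ).le _),
              Real.mul_rpow (Real.rpow_nonneg (D.pos γ).le _) (abs_nonneg _),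
              ← Real.rpow_mul (D.pos γ).le, one_div, inv_mul_cancel₀ hp0.ne', Real.rpow_one]
          · intro γ hγ
            have : h γ = 0 := by
              by_contra h0
              exact hγ (by rw [hs, Set.Finite.mem_toFinset]; exact h0)
            rw [this, abs_zero, Real.zero_rpow hp0.ne', mul_zero]
        have hqq : (ENNReal.ofReal q).toReal = q := ENNReal.toReal_ofReal hq0.le
        have h2 : (∑ γ ∈ s, |(|y γ|)| ^ q) ^ (1 / q) ≤ ‖y‖ := by
          have h3 : ∑ γ ∈ s, |(|y γ|)| ^ q ≤ ‖y‖ ^ q := by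
            have h4 := lp.sum_rpow_le_norm_rpow (p := ENNReal.ofReal q)
              (by rw [hqq]; exact hq0) y s
            rw [hqq] at h4
            simpa only [Real.norm_eq_abs, abs_abs] using h4
          calc (∑ γ ∈ s, |(|y γ|)| ^ q) ^ (1 / q) ≤ (‖y‖ ^ q) ^ (1 / q) := by
                apply Real.rpow_le_rpow _ h3 (by positivity)
                exact Finset.sum_nonneg fun γ _ => Real.rpow_nonneg (abs_nonneg _) _
            _ = ‖y‖ := by
                rw [← Real.rpow_mul (lp.norm_nonneg' y), mul_one_div_cancel hq0.ne', Real.rpow_one]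
        rw [h1]
        apply mul_le_mul_of_nonneg_left h2
        apply Real.rpow_nonneg
        exact tsum_nonneg fun γ => mul_nonneg (D.pos γ).le (Real.rpow_nonneg (abs_nonneg _) _)

/-- finitely supported functionals on `lp q` -/
noncomputable def fn (p q : ℝ) (hpq : p.HolderConjugate q) [Fact (1 ≤ ENNReal.ofReal q)]
    (h : Γ → ℝ) (hfin : (Function.support h).Finite) :
    lp (fun _ : Γ => ℝ) (ENNReal.ofReal q) →L[ℝ] ℝ :=
  LinearMap.mkContinuous
    { toFun := fun y => ip D.ρ h (gfw q D y)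
      map_add' := fun y y' => by
        have e : gfw q D (y + y') = fun γ => gfw q D y γ + gfw q D y' γ := by
          funext γ
          unfold gfw
          have : (y + y') γ = y γ + y' γ := rfl
          rw [this]; ring
        rw [e, ip_add hfin]
      map_smul' := fun c y => by
        have e : gfw q D (c • y) = fun γ => c * gfw q D y γ := by
          funext γ
          unfold gfw
          have : (c • y) γ = c * y γ := rfl
          rw [this]; ring
        rw [e, ip_smul]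
        rfl }
    ((∑' γ, D.ρ γ * |h γ| ^ p) ^ (1 / p)) (fun y => ip_gfw_le D p q hpq h hfin y)

theorem fn_apply (p q : ℝ) (hpq : p.HolderConjugate q) [Fact (1 ≤ ENNReal.ofReal q)]
    (h : Γ → ℝ) (hfin : (Function.support h).Finite)
    (y : lp (fun _ : Γ => ℝ) (ENNReal.ofReal q)) :
    fn D p q hpq h hfin y = ip D.ρ h (gfw q D y) := rfl

theorem fn_norm (p q : ℝ) (hpq : p.HolderConjugate q) [Fact (1 ≤ ENNReal.ofReal q)]
    (h : Γ → ℝ) (hfin : (Function.support h).Finite) (hle : ∑' γ, D.ρ γ * |h γ| ^ p ≤ 1) :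
    ‖fn D p q hpq h hfin‖ ≤ 1 := by
  have hp1 : 1 < p := hpq.lt
  have h0 : 0 ≤ ∑' γ, D.ρ γ * |h γ| ^ p :=
    tsum_nonneg fun γ => mul_nonneg (D.pos γ).le (Real.rpow_nonneg (abs_nonneg _) _)
  refine (LinearMap.mkContinuous_norm_le _ (Real.rpow_nonneg h0 _) _).trans ?_
  exact Real.rpow_le_one h0 hle (by positivity)

end basic

section Rop

variable {Γ I G : Type} [DecidableEq I] (D : Sys Γ I) (p q : ℝ) (hpq : p.HolderConjugate q)
  [Fact (1 ≤ ENNReal.ofReal p)] (x : G → Γ → ℝ)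
  (hx0 : ∀ g j, ip D.ρ (D.vh j) (x g) = 0)
  (hxf : ∀ γ, {g | x g γ ≠ 0}.Finite) (hx1 : ∀ γ, ∑' g, |x g γ| ^ q ≤ 1)

include hpq hxf hx1 in
theorem R_bound (a : lp (fun _ : G => ℝ) (ENNReal.ofReal p)) (γ : Γ) :
    |∑' g, a g * x g γ| ≤ ‖a‖ := by
  classical
  have hp1 : 1 < p := hpq.lt
  have hq1 : 1 < q := hpq.symm.lt
  have hp0 : 0 < p := by linarith
  have hq0 : 0 < q := by linarith
  have hpp : (ENNReal.ofReal p).toReal = p := ENNReal.toReal_ofReal hp0.le
  set s : Finset G := (hxf γ).toFinset with hs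
  have hz : ∀ g ∉ s, x g γ = 0 := by
    intro g hg
    by_contra h0
    exact hg (by rw [hs, Set.Finite.mem_toFinset]; exact h0)
  rw [tsum_eq_sum (s := s) (fun g hg => by rw [hz g hg, mul_zero])]
  calc |∑ g ∈ s, a g * x g γ| ≤ ∑ g ∈ s, |a g| * |x g γ| := by
        refine (Finset.abs_sum_le_sum_abs _ _).trans ?_
        exact Finset.sum_le_sum fun γ _ => (abs_mul _ _).le
    _ ≤ (∑ g ∈ s, |(|a g|)| ^ p) ^ (1 / p) * (∑ g ∈ s, |(|x g γ|)| ^ q) ^ (1 / q) :=
        Real.inner_le_Lp_mul_Lq _ _ _ hpq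
    _ ≤ ‖a‖ * 1 := by
        apply mul_le_mul
        · have h3 : ∑ g ∈ s, |(|a g|)| ^ p ≤ ‖a‖ ^ p := by
            have h4 := lp.sum_rpow_le_norm_rpow (p := ENNReal.ofReal p)
              (by rw [hpp]; exact hp0) a s
            rw [hpp] at h4
            simpa only [Real.norm_eq_abs, abs_abs] using h4
          calc (∑ g ∈ s, |(|a g|)| ^ p) ^ (1 / p) ≤ (‖a‖ ^ p) ^ (1 / p) := by
                apply Real.rpow_le_rpow _ h3 (by positivity)
                exact Finset.sum_nonneg fun γ _ => Real.rpow_nonneg (abs_nonneg _) _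
            _ = ‖a‖ := by
                rw [← Real.rpow_mul (norm_nonneg _), mul_one_div_cancel hp0.ne', Real.rpow_one]
        · apply Real.rpow_le_one
          · exact Finset.sum_nonneg fun γ _ => Real.rpow_nonneg (abs_nonneg _) _
          · have h5 : ∑ g ∈ s, |(|x g γ|)| ^ q = ∑' g, |x g γ| ^ q := by
              rw [tsum_eq_sum (s := s)]
              · simp only [abs_abs]
              · intro g hg
                rw [hz g hg, abs_zero, Real.zero_rpow hq0.ne']
            rw [h5]; exact hx1 γ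
          · positivity
        · exact Real.rpow_nonneg (Finset.sum_nonneg fun γ _ => Real.rpow_nonneg (abs_nonneg _) _) _
        · exact norm_nonneg _
    _ = ‖a‖ := mul_one _

include hx0 hxf in
omit [DecidableEq I] in
theorem R_orth (a : G → ℝ) (j : I) :
    ip D.ρ (D.vh j) (fun γ => ∑' g, a g * x g γ) = 0 := by
  classical
  have hfs : ∀ γ, Summable fun g => a g * x g γ := fun γ =>
    summable_of_hasFiniteSupport ((hxf γ).subset fun g hg => by
      simp only [Function.mem_support] at hg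
      simp only [Set.mem_ofPred_eq]
      intro h0; apply hg; rw [h0, mul_zero])
  set s : Finset Γ := (D.fin_supp j).toFinset with hs
  have hz : ∀ γ ∉ s, D.vh j γ = 0 := by
    intro γ hg
    by_contra h0
    exact hg (by rw [hs, Set.Finite.mem_toFinset]; exact h0)
  have e1 : ip D.ρ (D.vh j) (fun γ => ∑' g, a g * x g γ) =
      ∑ γ ∈ s, ∑' g, D.ρ γ * (D.vh j γ * (a g * x g γ)) := by
    unfold ip
    rw [tsum_eq_sum (s := s) (fun γ hγ => by rw [hz γ hγ]; ring)]
    refine Finset.sum_congr rfl fun γ _ => ?_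
    rw [tsum_mul_left, tsum_mul_left]
  rw [e1, ← Summable.tsum_finsetSum]
  · have : ∀ g, ∑ γ ∈ s, D.ρ γ * (D.vh j γ * (a g * x g γ)) = 0 := by
      intro g
      have h1 := hx0 g j
      unfold ip at h1
      rw [tsum_eq_sum (s := s) (fun γ hγ => by rw [hz γ hγ]; ring)] at h1
      calc ∑ γ ∈ s, D.ρ γ * (D.vh j γ * (a g * x g γ)) =
          a g * ∑ γ ∈ s, D.ρ γ * (D.vh j γ * x g γ) := by
            rw [Finset.mul_sum]
            exact Finset.sum_congr rfl fun γ _ => by ring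
        _ = 0 := by rw [h1, mul_zero]
    simp only [this, tsum_zero]
  · intro γ _
    exact ((hfs γ).mul_left _).mul_left _

/-- the operator `R : ℓ_p(G) → XX D` -/
noncomputable def Rop : lp (fun _ : G => ℝ) (ENNReal.ofReal p) →L[ℝ] XX D :=
  LinearMap.mkContinuous
    { toFun := fun a => mkX D (fun γ => ∑' g, a g * x g γ) ‖a‖
        (fun γ => R_bound p q hpq x hxf hx1 a γ) (R_orth D x hx0 hxf a)
      map_add' := fun a b => by
        apply Subtype.ext
        apply lp.ext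
        funext θ
        rcases θ with γ | o
        · show ∑' g, (a + b) g * x g γ = ∑' g, a g * x g γ + ∑' g, b g * x g γ
          have hfs : ∀ a : G → ℝ, Summable fun g => a g * x g γ := fun a =>
            summable_of_hasFiniteSupport ((hxf γ).subset fun g hg => by
              simp only [Function.mem_support] at hg
              simp only [Set.mem_ofPred_eq]
              intro h0; apply hg; rw [h0, mul_zero])
          rw [← Summable.tsum_add (hfs a) (hfs b)]
          refine tsum_congr fun g => ?_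
          have : (a + b) g = a g + b g := rfl
          rw [this]; ring
        · show (0:ℝ) = 0 + 0
          ring
      map_smul' := fun c a => by
        apply Subtype.ext
        apply lp.ext
        funext θ
        rcases θ with γ | o
        · show ∑' g, (c • a) g * x g γ = c * ∑' g, a g * x g γ
          rw [← tsum_mul_left]
          refine tsum_congr fun g => ?_
          have : (c • a) g = c * a g := rfl
          rw [this]; ring
        · show (0:ℝ) = c * 0
          ring }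
    1 (fun a => by
      rw [one_mul]
      exact mkX_norm D (fun γ => ∑' g, a g * x g γ) ‖a‖
        (fun γ => R_bound p q hpq x hxf hx1 a γ) (norm_nonneg _) (R_orth D x hx0 hxf a))

theorem Rop_norm : ‖Rop D p q hpq x hx0 hxf hx1‖ ≤ 1 :=
  LinearMap.mkContinuous_norm_le _ zero_le_one _

theorem Rop_inl (a : lp (fun _ : G => ℝ) (ENNReal.ofReal p)) (γ : Γ) :
    ((Rop D p q hpq x hx0 hxf hx1 a : XX D) : lp (fun _ : Γ ⊕ Om I => ℝ) ∞) (Sum.inl γ) =
      ∑' g, a g * x g γ := rfl

theorem Rop_inr (a : lp (fun _ : G => ℝ) (ENNReal.ofReal p)) (o : Om I) :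
    ((Rop D p q hpq x hx0 hxf hx1 a : XX D) : lp (fun _ : Γ ⊕ Om I => ℝ) ∞) (Sum.inr o) =
      0 := rfl

end Rop

theorem outer_of_wop (p q : ℝ) (hpq : p.HolderConjugate q)
    [Fact (1 ≤ ENNReal.ofReal p)] [Fact (1 ≤ ENNReal.ofReal q)] (hW : WopStmt q)
    {Γ I : Type} [DecidableEq I] (D : Sys Γ I)
    (hD : OutData p q D) (lam : ℝ≥0) :
    ∃ (Y : Type) (_ : NormedAddCommGroup Y) (_ : NormedSpace ℝ Y) (_ : CompleteSpace Y)
      (T : Y →L[ℝ] XX D), FiniteRank T ∧ (lam : ℝ≥0∞) * iNorm p T < gNorm p T := by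
  classical
  have hp1 : 1 < p := hpq.lt
  have hp0 : 0 < p := by linarith
  obtain ⟨M, hM, hW⟩ := hW
  obtain ⟨YY, W, hYY, hcl, hWx, hWs⟩ := hW Γ I D
  set ε : ℝ := 1 / (2 * (lam + 1) * M) with hε
  have hlam0 : (0 : ℝ) ≤ lam := lam.2
  have hε0 : 0 < ε := by positivity
  obtain ⟨m, φ, z, G, cG, η, x, d, hφ, hz, hzo, htr, hηf, hη1, hx0, hxf, hx1, hd0, hds, hdpos,
    hdle, hrep⟩ := hD ε hε0
  haveI : Countable G := cG
  have hzb : ∀ i, ∃ C, ∀ γ, |z i γ| ≤ C := by
    intro i
    have h1 : ((fun γ => |z i γ|) '' (Function.support (z i))).Finite := (hz i).image _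
    obtain ⟨C, hC⟩ := h1.bddAbove
    refine ⟨max C 0, fun γ => ?_⟩
    by_cases hγ : z i γ = 0
    · rw [hγ, abs_zero]; exact le_max_right _ _
    · exact (hC ⟨γ, hγ, rfl⟩).trans (le_max_left _ _)
  choose C hC using hzb
  let Z : Fin m → XX D := fun i => mkX D (z i) (C i) (hC i) (hzo i)
  let al : Fin m → (YY →L[ℝ] ℝ) := fun i => (fn D p q hpq (φ i) (hφ i)).comp YY.subtypeL
  let T : YY →L[ℝ] XX D := ∑ i, (al i).smulRight (Z i)
  have hTy : ∀ y, T y = ∑ i, al i y • Z i := by
    intro y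
    simp only [T, sum_apply, ContinuousLinearMap.smulRight_apply]
  refine ⟨YY, inferInstance, inferInstance, hcl.completeSpace_coe, T, ?_, ?_⟩
  · have h1 : LinearMap.range (T : YY →ₗ[ℝ] XX D) ≤ Submodule.span ℝ (Set.range Z) := by
      rintro _ ⟨y, rfl⟩
      show T y ∈ _
      rw [hTy]
      exact Submodule.sum_mem _ fun i _ => Submodule.smul_mem _ _ (Submodule.subset_span ⟨i, rfl⟩)
    haveI : FiniteDimensional ℝ (Submodule.span ℝ (Set.range Z)) :=
      FiniteDimensional.span_of_finite ℝ (Set.finite_range Z)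
    exact Submodule.finiteDimensional_of_le h1
  · have hlow : ENNReal.ofReal (1 / M) ≤ gNorm p T := by
      refine gNorm_lower' p q hpq M hM W hWs T al (fun i => W (Z i)) ?_ ?_
      · intro y
        rw [hTy, map_sum]
        simp
      · rw [← htr]
        refine Finset.sum_congr rfl fun i _ => ?_
        show ip D.ρ (φ i) (gfw q D (W (Z i))) = ip D.ρ (φ i) (z i)
        congr 1
        funext γ
        exact hWx (Z i) (hzo i) γ
    have hup : iNorm p T ≤ ENNReal.ofReal ((∑' g, d g ^ p) ^ (1 / p)) := by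
      refine Pool.Agent.BAPp.ILe.iNorm_le_diag p hp1 d hd0 hds hdpos
        (fun g => (fn D p q hpq (η g) (hηf g)).comp YY.subtypeL) ?_
        (Rop D p q hpq x hx0 hxf hx1) (Rop_norm D p q hpq x hx0 hxf hx1) T ?_
      · intro g
        calc ‖(fn D p q hpq (η g) (hηf g)).comp YY.subtypeL‖
            ≤ ‖fn D p q hpq (η g) (hηf g)‖ * ‖YY.subtypeL‖ :=
              ContinuousLinearMap.opNorm_comp_le _ _
          _ ≤ 1 * 1 := by
              gcongr
              · exact fn_norm D p q hpq (η g) (hηf g) (hη1 g)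
              · exact Submodule.norm_subtypeL_le YY
          _ = 1 := one_mul _
      · intro y a ha
        rw [hTy]
        apply Subtype.ext
        apply lp.ext
        funext θ
        rcases θ with γ | o
        · rw [Rop_inl]
          have h1 := hrep (gfw q D y) ((hYY y).1 y.2) γ
          have h2 : ((∑ i, al i y • Z i : XX D) : lp (fun _ : Γ ⊕ Om I => ℝ) ∞) (Sum.inl γ) =
              ∑ i, ip D.ρ (φ i) (gfw q D y) * z i γ := by
            rw [Submodule.coe_sum, lp.coeFn_sum, Finset.sum_apply]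
            rfl
          rw [h2, h1]
          refine tsum_congr fun g => ?_
          have h3 : (a : G → ℝ) g = d g * ip D.ρ (η g) (gfw q D y) := ha g
          rw [h3]
        · rw [Rop_inr]
          rw [Submodule.coe_sum, lp.coeFn_sum, Finset.sum_apply]
          apply Finset.sum_eq_zero
          intro i _
          show al i y * 0 = 0
          ring
    have hdS0 : 0 ≤ ∑' g, d g ^ p := hdpos.le
    have hdε : (∑' g, d g ^ p) ^ (1 / p) ≤ ε := by
      calc (∑' g, d g ^ p) ^ (1 / p) ≤ (ε ^ p) ^ (1 / p) :=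
            Real.rpow_le_rpow hdS0 hdle (by positivity)
        _ = ε := by
            rw [← Real.rpow_mul hε0.le, mul_one_div_cancel hp0.ne', Real.rpow_one]
    calc (lam : ℝ≥0∞) * iNorm p T ≤ lam * ENNReal.ofReal ε := by
          gcongr
          exact hup.trans (ENNReal.ofReal_le_ofReal hdε)
      _ = ENNReal.ofReal (lam * ε) := by
          rw [ENNReal.ofReal_mul hlam0, ENNReal.ofReal_coe_nnreal]
      _ < ENNReal.ofReal (1 / M) := by
          rw [ENNReal.ofReal_lt_ofReal_iff (by positivity), hε]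
          rw [mul_one_div, div_lt_div_iff₀ (by positivity) hM]
          nlinarith
      _ ≤ gNorm p T := hlow

end Pool.Agent.Helper38.BAP
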